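import Pool.Agent.R473.JC.Final
import Pool.Agent.U456.IZ.Gen

/-!
# The digits of `ζ(k)` and of the tails of its `k`-fold integral

For an integer `k ≥ 2`, `ω = exp(2πi/k)` and `x ≥ 0` let
`R_k(x) = (-1)^k / k! ∫ (∑_j ω^j log t_j)^k exp(-∑_j t_j) dt`, the integral being over the points of the
octant `(0, ∞)^k` with `max t_j ≥ x`. This number is real and `R_k(0) = ζ(k)`, the integral over the
octant. The case of odd `k` is the one of interest here.

`S(X) = s_1 X + ⋯ + s_L X^L`, where the `s_i` are the digits of a real number `u` in base `b` after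
at most `K` of them have been changed.  The `K`-error algebraic complexity `N_b(u) = N_b(u; r, K, L)`
is the least `h` such that `X^(L+1)` divides `P(X, S(X))` for some nonzero polynomial `P(X, Y)` of
degree at most `r` in `Y` and at most `h` in `X` and some such choice of `S`; for `r = 1` this is
essentially the linear complexity.

Any two different members of a finite family of numbers `e^s R_k(x)` (`x ≥ 0` and `s` rational,
different pairs `(x, s)`, and `R_k(x) ≠ 0` if `x` occurs more than once) cannot both have digits of low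
algebraic complexity, where two different bases, two different lengths and two different numbers of
errors are allowed. For instance for every `k ≥ 2`, every positive rational `x` and every `r` there is
`c > 0` such that for all bases `b`, all `K` and all `L`: `c^(K+1) L ≤ N_b(ζ(k)) + N_b(R_k(x)) + 2`.

The proof combines the formula of `Pool.Agent.R352.Q` for `ζ(k) - R_k(x)` as a polynomial in values of
E-functions, the measure of algebraic independence for these values (`Pool.Agent.N743.SS.measM_EE`, a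
quantitative form of Shidlovskii's theorem), see `Pool/Agent/U456/IZ/Joint.lean`, and the estimate for
the digits of two numbers with a joint measure (`Pool.Agent.R473.JC.family`).
-/

set_option autoImplicit false

namespace Pool.Agent.Results.MP_c2395a_nt.DigitsOfTails

open Finset Polynomial MeasureTheory

/-- `(∑_j ω^j log t_j)^k exp(-∑_j t_j)`, `ω = exp(2πi/k)` -/
noncomputable def integrand (k : ℕ) (t : Fin k → ℝ) : ℂ :=
  (∑ j : Fin k, Complex.exp (2 * Real.pi * Complex.I / k) ^ (j : ℕ) * (Real.log (t j) : ℂ)) ^ k *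
    ((Real.exp (-∑ j, t j) : ℝ) : ℂ)

/-- the points of the octant with a coordinate at least `x` -/
def rest (k : ℕ) (x : ℝ) : Set (Fin k → ℝ) := {t | (∀ j, 0 < t j) ∧ ∃ j, x ≤ t j}

/-- `R_k(x)`, as a complex number -/
noncomputable def tail (k : ℕ) (x : ℝ) : ℂ :=
  (-1) ^ k / k.factorial * ∫ t in rest k x, integrand k t

/-- `R_k(x)`, as a real number -/
noncomputable def R (k : ℕ) (x : ℝ) : ℝ := (tail k x).re

/-- the `i`-th digit of `x` after the point in base `b` -/
noncomputable def digit (b : ℕ) (x : ℝ) (i : ℕ) : ℤ := ⌊x * (b : ℝ) ^ i⌋ % (b : ℤ)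

/-- the polynomial `s_1 X + s_2 X^2 + ⋯ + s_L X^L` -/
noncomputable def seqPoly (s : ℕ → ℤ) (L : ℕ) : ℚ[X] :=
  ∑ l ∈ Finset.Icc 1 L, C (s l : ℚ) * X ^ l

/-- `s` is a sequence of base `b` digits, and among the places `1, …, L` at most `K` are such that
`s_l` is not the `l`-th digit of `x` -/
def Near (b : ℕ) (x : ℝ) (K L : ℕ) (s : ℕ → ℤ) : Prop :=
  (∀ l, 0 ≤ s l ∧ s l < b) ∧ {l : ℕ | 1 ≤ l ∧ l ≤ L ∧ s l ≠ digit b x l}.ncard ≤ K

/-- there is a nonzero polynomial `P(X, Y)` over `ℚ` of degree `≤ r` in `Y` and `≤ k` in `X` such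
that `P(X, S(X))` is divisible by `X^(L+1)`, where `S` is the polynomial of the first `L` terms
of `s` -/
def AlgRelation (s : ℕ → ℤ) (r L k : ℕ) : Prop :=
  ∃ P : ℚ[X][X], P ≠ 0 ∧ P.natDegree ≤ r ∧ (∀ j, (P.coeff j).natDegree ≤ k) ∧
    X ^ (L + 1) ∣ P.eval (seqPoly s L)

/-- the `K`-error algebraic complexity of degree `r` of the first `L` digits of `x` in base `b` -/
noncomputable def complexity (b : ℕ) (x : ℝ) (r K L : ℕ) : ℕ :=
  sInf {k : ℕ | ∃ s, Near b x K L s ∧ AlgRelation s r L k}

/-- the joint lower bound for the digits of `u` and `v` in degree `r`, with the constant `A`, in all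
pairs of bases, for all lengths and all numbers of errors -/
def Bound (A : ℝ) (r : ℕ) (u v : ℝ) : Prop :=
  ∀ b b' : ℕ, 2 ≤ b → 2 ≤ b' → ∀ K K' L L' : ℕ,
    min (L * Real.log b) (L' * Real.log b') ≤
      A ^ (K + K' + 1) * ((complexity b u r K L + 1) * Real.log b +
        (complexity b' v r K' L' + 1) * Real.log b')

/-- the case of one base, one length and one number of errors -/
lemma one_base (u v A : ℝ) (hA : 1 ≤ A) (r : ℕ) (h : Bound A r u v) (b : ℕ) (hb : 2 ≤ b)
    (K L : ℕ) : (1 / A ^ 2) ^ (K + 1) * (L : ℝ) ≤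
      complexity b u r K L + complexity b v r K L + 2 := by
  have hl : 0 < Real.log b := Real.log_pos (by exact_mod_cast (by omega : 1 < b))
  have hA0 : 0 < A := by linarith
  have h1 := h b b hb hb K K L L
  rw [min_self] at h1
  have h2 : (L : ℝ) ≤ A ^ (K + K + 1) * (complexity b u r K L + complexity b v r K L + 2) := by
    have h3 : (L : ℝ) * Real.log b ≤
        (A ^ (K + K + 1) * (complexity b u r K L + complexity b v r K L + 2)) * Real.log b := by
      linarith
    exact le_of_mul_le_mul_right h3 hl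
  have h4 : A ^ (K + K + 1) ≤ (A ^ 2) ^ (K + 1) := by
    rw [← pow_mul]
    exact pow_le_pow_right₀ hA (by omega)
  rw [div_pow, one_pow, div_mul_eq_mul_div, one_mul, div_le_iff₀ (by positivity)]
  calc (L : ℝ) ≤ A ^ (K + K + 1) * (complexity b u r K L + complexity b v r K L + 2) := h2
    _ ≤ (A ^ 2) ^ (K + 1) * (complexity b u r K L + complexity b v r K L + 2) :=
        mul_le_mul_of_nonneg_right h4 (by positivity)
    _ = _ := by ring

/-- **The digits of `ζ(k)` and of the tails of its `k`-fold integral.** Let `k ≥ 2`.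

(1) `R_k(x)` is real for all real `x ≥ 0`, and `R_k(0) = ζ(k)`.

(2) For every finite family of numbers `e^s R_k(x)` with rational `x ≥ 0` and rational `s`, with
different pairs `(x, s)` and with `R_k(x) ≠ 0` if `x` occurs more than once, and every `r` there is
`A ≥ 1` such that for any two of them, all bases `β, β'`, all lengths `L, L'` and all numbers of
errors `K, K'`: `min (L log β, L' log β') ≤ A^(K+K'+1) ((N + 1) log β + (N' + 1) log β')`.

(3) For every rational `x > 0` and every `r` there is `c > 0` such that for all bases `b ≥ 2`, all `K`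
and all `L`: `c^(K+1) L ≤ N_b(ζ(k); r, K, L) + N_b(R_k(x); r, K, L) + 2`. -/
theorem result (k : ℕ) (hk : 2 ≤ k) :
    ((∀ x : ℝ, 0 ≤ x → tail k x = (R k x : ℂ)) ∧ R k 0 = ∑' n : ℕ, 1 / ((n : ℝ) + 1) ^ k) ∧
    (∀ (n : ℕ) (x s : Fin n → ℚ), (∀ i, 0 ≤ x i) →
      (∀ i j, i ≠ j → x i = x j → s i ≠ s j ∧ R k (x i) ≠ 0) →
      ∀ r : ℕ, ∃ A : ℝ, 1 ≤ A ∧ ∀ i j, i ≠ j →
        Bound A r (Real.exp (s i) * R k (x i)) (Real.exp (s j) * R k (x j))) ∧
    (∀ (x : ℚ), 0 < x → ∀ r : ℕ, ∃ c : ℝ, 0 < c ∧ ∀ b : ℕ, 2 ≤ b → ∀ K L : ℕ,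
      c ^ (K + 1) * L ≤ complexity b (R k 0) r K L + complexity b (R k x) r K L + 2) := by
  have part2 : ∀ (n : ℕ) (x s : Fin n → ℚ), (∀ i, 0 ≤ x i) →
      (∀ i j, i ≠ j → x i = x j → s i ≠ s j ∧ R k (x i) ≠ 0) →
      ∀ r : ℕ, ∃ A : ℝ, 1 ≤ A ∧ ∀ i j, i ≠ j →
        Bound A r (Real.exp (s i) * R k (x i)) (Real.exp (s j) * R k (x j)) := by
    intro n x s hx h r
    exact Pool.Agent.R473.JC.family (fun i => Real.exp (s i) * R k (x i))
      (fun i j hij => Pool.Agent.U456.IZ.joint_Rg hk x s hx h i j hij) r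
  refine ⟨⟨fun x hx => Pool.Agent.U456.IZ.tailk_real hk hx, Pool.Agent.U456.IZ.Rg_zero hk⟩,
    part2, fun x hx r => ?_⟩
  obtain ⟨A, hA, h⟩ := part2 2 ![0, x] (fun _ => 0) (by
    intro i
    fin_cases i
    · exact le_rfl
    · exact hx.le) (by
    intro i j hij hxy
    exfalso
    fin_cases i <;> fin_cases j
    · exact hij rfl
    · exact hx.ne hxy
    · exact hx.ne hxy.symm
    · exact hij rfl) r
  have h01 := h 0 1 (by decide)
  have e0 : Real.exp (((fun _ : Fin 2 => (0 : ℚ)) 0 : ℚ) : ℝ) *
      R k ((![0, x] : Fin 2 → ℚ) 0) = R k 0 := by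
    simp
  have e1 : Real.exp (((fun _ : Fin 2 => (0 : ℚ)) 1 : ℚ) : ℝ) *
      R k ((![0, x] : Fin 2 → ℚ) 1) = R k x := by
    simp
  rw [e0, e1] at h01
  have hA0 : 0 < A := by linarith
  exact ⟨1 / A ^ 2, by positivity, fun b hb K L => one_base _ _ A hA r h01 b hb K L⟩

end Pool.Agent.Results.MP_c2395a_nt.DigitsOfTails
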