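import Pool.Agent.U795.Z7.Z

/-!
# One of the four numbers `ζ(7)`, `ζ(9)`, `ζ(11)`, `ζ(13)` is irrational

The proof (`Pool/Agent/U795/Z7/`) compares, for Hankel determinants of size `25 (n - 1)` of linear forms in
`1, ζ(7), ζ(9), ζ(11), ζ(13)` (fourth derivatives of a very well poised rational function with poles of order ten and
zeros of order five), an archimedean bound on a slanted contour, with explicit polynomials, with `p`-adic bounds for all
primes `p`. If the four numbers were rational, the product formula would fail for large prime parameters `n`, where the
determinant does not vanish: the archimedean part is `1250 n² log n + 700.6 n²`, the `p`-adic parts sum up to at most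
`-1250 n² log n - 708.8 n²`.

The layout of the proof follows the starting files `Pool/Agent/H343X/` (`ζ(11), …, ζ(27)`); the parameters (size of the
determinants, multiplicities), the archimedean data (atoms, exponents, break points; the margin is much smaller here),
the nonvanishing certificate and all the numerical parts are new.
-/

namespace Pool.Agent.Results.MP_c2395a_nt.OddZeta7To13

/-- One of the four numbers `ζ(7), ζ(9), ζ(11), ζ(13)` is irrational, where `ζ(j) = ∑ 1/(n+1)^j`. -/
theorem result : ∃ j ∈ ({7, 9, 11, 13} : Finset ℕ), Irrational (∑' n : ℕ, 1 / ((n : ℝ) + 1) ^ j) :=
  Pool.Agent.U795.Z7.Z_main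

end Pool.Agent.Results.MP_c2395a_nt.OddZeta7To13
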