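import Mathlib
import Pool.Agent.U664.LZ.Sim

set_option autoImplicit false

/-!
# Odd zeta values outside finite-dimensional vector spaces over fields of Liouville numbers

Call a field `F` of real numbers simultaneously Liouville if for any finitely many elements
`x_1, …, x_m` of `F` and any `w` there are arbitrarily large `q` with `‖q x_i‖ < q ^ (-w)` for all
`i`. Besides `ℚ` such fields are, for instance,

* for a sequence `T_n → ∞` the field of all real numbers `x` which for one `A` and for all `E` have
  rational approximations of height at most `exp (A T_n)` with an error at most `exp (-E T_n)` for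
  all large `n`;
* for an infinite set `S` of integers the field generated by all real numbers `x` whose first `N`
  digits in some base have a partition into `o (log N)` phrases (`N ∈ S`), each of which is a digit
  or a copy of a block which begins earlier.

We show, uniformly in `F`, that every `F`-vector space `V` of real numbers of dimension
`D ≤ log log s / 2000` misses at least `(1 / (2000 D)) √(s log log s / log s)` of the odd zeta values
`ζ(i)`, `i ≤ s`. (`V = F`: so many of the odd zeta values are not in `F`. `V` an extension field of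
`F` of degree `D`: so many are not in this field.) For `F = ℚ` this is the starting result
`MP_a89d6d_nt.OutsideSubspaces`.

Proof. The odd zeta values up to `s` which lie in `V` are combinations of a basis of `V` with
coefficients in `F`. We approximate the coefficients with one denominator `M` up to `M ^ (-w)`, and
the members of the basis, by Dirichlet's theorem, with a denominator `q ≤ M ^ ((3 D + 4) D)`. If `w`
is large, `M q` is a common denominator for approximations of these zeta values which are better than
`(M q) ^ (-1 / (D + 1))`. There are arbitrarily large `M`; but by the starting result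
`MP_c2395a_nt.SimultaneousApproximation` of helper818 such approximations, with large denominators,
cannot be good for all but a few of the odd zeta values.
-/

namespace Pool.Agent.Results.MP_c2395a_nt.OverLiouvilleFields

open Filter Topology Pool.Agent.Q163.LE

/-- the field generated by all real numbers `x` such that, for some base `b`,
`phrases b x N / log N` tends to `0` as `N` tends to infinity in `S` -/
noncomputable def field (S : Set ℕ) : Subfield ℝ := Subfield.closure {x : ℝ | ∃ b : ℕ, 2 ≤ b ∧
  Tendsto (fun N : ℕ => (phrases b x N : ℝ) / Real.log N) (atTop ⊓ 𝓟 S) (𝓝 0)}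

/-- `ζ(i) = ∑ 1 / (n+1)^i` -/
noncomputable def zeta (i : ℕ) : ℝ := ∑' n : ℕ, 1 / ((n : ℝ) + 1) ^ i

/-- **Odd zeta values outside finite-dimensional vector spaces over simultaneously Liouville
fields.** -/
theorem result :
    -- examples of such fields
    (∀ (T : ℕ → ℝ) (hT : Tendsto T atTop atTop), SimLiouville (ApField T hT)) ∧
    (∀ S : Set ℕ, S.Infinite → SimLiouville (field S)) ∧
    -- the theorem
    ∃ s0 : ℕ, ∀ s ≥ s0, ∀ D : ℕ, 1 ≤ D → (D : ℝ) ≤ (1 / 2000) * Real.log (Real.log s) →
      ∀ F : Subfield ℝ, SimLiouville F →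
      ∀ V : Submodule F ℝ, FiniteDimensional F V → Module.finrank F V ≤ D →
        (1 / 2000) / D * Real.sqrt (s * Real.log (Real.log s) / Real.log s) ≤
          (Set.ncard {i : ℕ | 3 ≤ i ∧ i ≤ s ∧ Odd i ∧ zeta i ∉ V} : ℝ) := by
  classical
  refine ⟨sim_apField, sim_lz, ?_⟩
  obtain ⟨s0, hs0⟩ := Pool.Agent.TH818.SA.t_final
  refine ⟨s0, fun s hs D hD hDL F hF V hV hVD => ?_⟩
  have hDr : (1 : ℝ) ≤ D := by exact_mod_cast hD
  have h1 : ((D + 1 : ℕ) : ℝ) ≤ (1 / 1000) * Real.log (Real.log s) := by
    push_cast
    linarith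
  obtain ⟨q0, hq0⟩ := hs0 s hs (D + 1) (by omega) h1
  obtain ⟨J, hJ⟩ : ∃ J : Finset ℕ, J = (Finset.Icc 3 s).filter (fun i => Odd i ∧ zeta i ∈ V) :=
    ⟨_, rfl⟩
  obtain ⟨q, hqq0, hq⟩ := Pool.Agent.U664.LZ.sim_subF hF V D hVD J zeta
    (fun i hi => by
      rw [hJ, Finset.mem_filter] at hi
      exact hi.2.2) q0
  have h2 := hq0 q hqq0
  have h3 : (1 / 2000) / D * Real.sqrt (s * Real.log (Real.log s) / Real.log s) ≤
      (1 / 1000) / ((D + 1 : ℕ) : ℝ) * Real.sqrt (s * Real.log (Real.log s) / Real.log s) := by
    apply mul_le_mul_of_nonneg_right _ (Real.sqrt_nonneg _)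
    push_cast
    rw [div_le_div_iff₀ (by positivity) (by positivity)]
    linarith
  refine (h3.trans h2).trans ?_
  have hfin : {i : ℕ | 3 ≤ i ∧ i ≤ s ∧ Odd i ∧ zeta i ∉ V}.Finite :=
    (Set.finite_Iic s).subset fun i hi => hi.2.1
  have hsub : {i : ℕ | 3 ≤ i ∧ i ≤ s ∧ Odd i ∧ ∀ p : ℤ, (q : ℝ) ^ (-(1 / ((D + 1 : ℕ) : ℝ))) ≤
      |(q : ℝ) * (∑' n : ℕ, 1 / ((n : ℝ) + 1) ^ i) - p|} ⊆
      {i : ℕ | 3 ≤ i ∧ i ≤ s ∧ Odd i ∧ zeta i ∉ V} := by
    rintro i ⟨a1, a2, a3, a4⟩
    refine ⟨a1, a2, a3, fun hmem => ?_⟩
    have hiJ : i ∈ J := by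
      rw [hJ, Finset.mem_filter, Finset.mem_Icc]
      exact ⟨⟨a1, a2⟩, a3, hmem⟩
    obtain ⟨p, hp⟩ := hq i hiJ
    have h4 := a4 p
    have e : zeta i = ∑' n : ℕ, 1 / ((n : ℝ) + 1) ^ i := rfl
    rw [e] at hp
    push_cast at h4
    linarith
  exact_mod_cast Set.ncard_le_ncard hsub hfin

end Pool.Agent.Results.MP_c2395a_nt.OverLiouvilleFields
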