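import Pool.Agent.N743.Alg
import Pool.Agent.U456.IZ.Gen

/-!
# `ζ(k)` in a family of `k`-fold integrals: the scales of the algebraic approximations

For an integer `k ≥ 2`, `ω = exp(2πi/k)` and `x ≥ 0` let
`R_k(x) = (-1)^k / k! ∫ (∑_j ω^j log t_j)^k exp(-∑_j t_j) dt`, the integral being over the points of the
octant `(0, ∞)^k` with `max t_j ≥ x`. This number is real and `R_k(0) = ζ(k)`, the integral over the
octant. The case of odd `k` is the one of interest here.

A number `u` is near at the scale `X` (with parameters `d` and `θ`) if some nonzero integer polynomial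
of degree at most `d` with coefficients at most `X^θ` has at `u` a value at most `1 / X`.

For every `k ≥ 2` and every finite family of numbers `e^s R_k(x)`, `x ≥ 0` and `s` rational, with
different pairs `(x, s)` (and `R_k(x) ≠ 0` if `x` occurs more than once), for instance for `ζ(k)` and
finitely many numbers `R_k(x)` with different positive rational `x`, for every degree `d` and every
`m > 1` the following scale dichotomy is proved, for all small `θ > 0`.

* At every large scale at most one of the numbers is near.
* If one of the numbers is algebraic of degree at most `d`, it is near at all large scales and the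
  others are near at no large scale.
* Otherwise every large scale `X` at which one of the numbers is near is followed by a scale `Z ≥ X`
  such that only this number is near between `X` and `Z` and none of the numbers is near between
  `Z` and `Z^m`; and there are arbitrarily large `Z` such that none of the numbers is near between
  `Z` and `Z^m`.

The proof combines three parts of the starting library and the new file
`Pool/Agent/U456/IZ/Joint.lean`: the formula of `Pool.Agent.R352.Q` for `ζ(k) - R_k(x)` as a polynomial in
values of E-functions, the measure of algebraic independence for these values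
(`Pool.Agent.N743.SS.measM_EE`, a quantitative form of Shidlovskii's theorem) and the engine of the
scale dichotomy (`Pool.Agent.N743.dichotomy_alg`).
-/

set_option autoImplicit false

namespace Pool.Agent.Results.MP_c2395a_nt.TailScales

open Finset Polynomial MeasureTheory
open Pool.Agent.N743 (Dichotomy)

/-- `(∑_j ω^j log t_j)^k exp(-∑_j t_j)`, `ω = exp(2πi/k)` -/
noncomputable def integrand (k : ℕ) (t : Fin k → ℝ) : ℂ :=
  (∑ j : Fin k, Complex.exp (2 * Real.pi * Complex.I / k) ^ (j : ℕ) * (Real.log (t j) : ℂ)) ^ k *
    ((Real.exp (-∑ j, t j) : ℝ) : ℂ)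

/-- the points of the octant with a coordinate at least `x` -/
def rest (k : ℕ) (x : ℝ) : Set (Fin k → ℝ) := {t | (∀ j, 0 < t j) ∧ ∃ j, x ≤ t j}

/-- `R_k(x)`, as a complex number -/
noncomputable def tail (k : ℕ) (x : ℝ) : ℂ :=
  (-1) ^ k / k.factorial * ∫ t in rest k x, integrand k t

/-- `R_k(x)`, as a real number -/
noncomputable def R (k : ℕ) (x : ℝ) : ℝ := (tail k x).re

/-- `u` is algebraic of degree at most `d` -/
def AlgDeg (d : ℕ) (u : ℝ) : Prop := ∃ P : ℤ[X], P ≠ 0 ∧ P.natDegree ≤ d ∧ aeval u P = 0

/-- some nonzero integer polynomial of degree at most `d` with coefficients at most `X ^ θ` in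
absolute value has at `u` a value at most `1 / X` in absolute value -/
def AlgNear (d : ℕ) (θ X u : ℝ) : Prop :=
  ∃ P : ℤ[X], P ≠ 0 ∧ P.natDegree ≤ d ∧ (∀ k, |((P.coeff k : ℤ) : ℝ)| ≤ X ^ θ) ∧
    |aeval u P| ≤ X⁻¹

/-- For every `d` and every `m > 1` there is `θ₀ > 0` such that for all positive `θ ≤ θ₀` the scale
dichotomy holds for the numbers `x i` (good: algebraic of degree at most `d`; near at the scale `X`:
see `AlgNear`). -/
def Scales {ι : Type} (x : ι → ℝ) : Prop :=
  ∀ (d : ℕ) (m : ℝ), 1 < m → ∃ θ₀ : ℝ, 0 < θ₀ ∧ ∀ θ : ℝ, 0 < θ → θ ≤ θ₀ →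
    Dichotomy (fun i => AlgDeg d (x i)) (fun X i => AlgNear d θ X (x i)) m

/-- **`ζ(k)` and the tails of its `k`-fold integral.** Let `k ≥ 2`.

(1) `R_k(x)` is real for all real `x ≥ 0`, and `R_k(0) = ζ(k)`.

(2) The scale dichotomy holds for all finite families of numbers `e^s R_k(x)` with rational `x ≥ 0` and
rational `s`, with different pairs `(x, s)` and with `R_k(x) ≠ 0` if `x` occurs more than once.

(3) In particular it holds for all finite families of numbers `R_k(x)` with different rational
`x ≥ 0`. -/
theorem result (k : ℕ) (hk : 2 ≤ k) :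
    ((∀ x : ℝ, 0 ≤ x → tail k x = (R k x : ℂ)) ∧ R k 0 = ∑' n : ℕ, 1 / ((n : ℝ) + 1) ^ k) ∧
    (∀ (n : ℕ) (x s : Fin n → ℚ), (∀ i, 0 ≤ x i) →
      (∀ i j, i ≠ j → x i = x j → s i ≠ s j ∧ R k (x i) ≠ 0) →
      Scales fun i => Real.exp (s i) * R k (x i)) ∧
    (∀ (n : ℕ) (x : Fin n → ℚ), (∀ i, 0 ≤ x i) → Function.Injective x →
      Scales fun i => R k (x i)) := by
  have part2 : ∀ (n : ℕ) (x s : Fin n → ℚ), (∀ i, 0 ≤ x i) →
      (∀ i j, i ≠ j → x i = x j → s i ≠ s j ∧ R k (x i) ≠ 0) →
      Scales fun i => Real.exp (s i) * R k (x i) := by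
    intro n x s hx h d m hm
    exact Pool.Agent.N743.dichotomy_alg _
      (fun i j hij => Pool.Agent.U456.IZ.joint_Rg hk x s hx h i j hij) d m hm
  refine ⟨⟨fun x hx => Pool.Agent.U456.IZ.tailk_real hk hx, Pool.Agent.U456.IZ.Rg_zero hk⟩,
    part2, ?_⟩
  intro n x hx hinj
  have h1 := part2 n x (fun _ => 0) hx fun i j hij h => absurd (hinj h) hij
  have e : (fun i => Real.exp ((fun _ : Fin n => (0 : ℚ)) i) * R k (x i)) =
      fun i => R k (x i) := by
    funext i
    simp
  rwa [e] at h1

end Pool.Agent.Results.MP_c2395a_nt.TailScales
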